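import Pool.Agent.P8FA.Ex

set_option autoImplicit false
set_option linter.unusedSectionVars false

namespace Pool.Agent.P8FA

open Finset Filter Topology

lemma hasSum_one : HasSum (fun n : ℕ => (1 : ℝ) / (((n : ℝ) + 1) * ((n : ℝ) + 2))) 1 := by
  rw [hasSum_iff_tendsto_nat_of_nonneg (by intro n; positivity)]
  have h : ∀ n : ℕ, ∑ i ∈ range n, (1 : ℝ) / (((i : ℝ) + 1) * ((i : ℝ) + 2)) = 1 - 1 / ((n : ℝ) + 1) := by
    intro n
    induction n with
    | zero => simp
    | succ n ih =>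
      rw [sum_range_succ, ih]
      push_cast
      have h1 : (n : ℝ) + 1 ≠ 0 := by positivity
      have h2 : (n : ℝ) + 2 ≠ 0 := by positivity
      have h3 : (n : ℝ) + 1 + 1 ≠ 0 := by positivity
      field_simp
      ring
  simp_rw [h]
  have := tendsto_one_div_add_atTop_nhds_zero_nat (𝕜 := ℝ)
  simpa using (tendsto_const_nhds (x := (1 : ℝ))).sub this

/-- `∑ r^(n+2)/((n+1)(n+2)) = r + (1-r) log (1-r)` -/
lemma hasSum_phi (r : ℝ) (h0 : 0 ≤ r) (h1 : r ≤ 1) :
    HasSum (fun n : ℕ => r ^ (n + 2) / (((n : ℝ) + 1) * ((n : ℝ) + 2)))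
      (r + (1 - r) * Real.log (1 - r)) := by
  rcases lt_or_eq_of_le h1 with h1 | h1
  · have habs : |r| < 1 := by rw [abs_of_nonneg h0]; exact h1
    have hs := Real.hasSum_pow_div_log_of_abs_lt_one habs
    have hs1 := hs.mul_left r
    -- shifted sum
    have hs2 : HasSum (fun n : ℕ => r ^ (n + 1 + 1) / (((n + 1 : ℕ) : ℝ) + 1))
        (-Real.log (1 - r) - r) := by
      have := (hasSum_nat_add_iff' (f := fun n : ℕ => r ^ (n + 1) / ((n : ℝ) + 1)) 1).2 hs
      simpa using this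
    have hs3 := hs1.sub hs2
    have heq : (fun n : ℕ => r * (r ^ (n + 1) / ((n : ℝ) + 1)) - r ^ (n + 1 + 1) / (((n + 1 : ℕ) : ℝ) + 1))
        = fun n : ℕ => r ^ (n + 2) / (((n : ℝ) + 1) * ((n : ℝ) + 2)) := by
      funext n
      push_cast
      have h1 : (n : ℝ) + 1 ≠ 0 := by positivity
      have h2 : (n : ℝ) + 2 ≠ 0 := by positivity
      have h3 : (n : ℝ) + 1 + 1 ≠ 0 := by positivity
      field_simp
      ring
    rw [heq] at hs3
    have hv : r * -Real.log (1 - r) - (-Real.log (1 - r) - r) = r + (1 - r) * Real.log (1 - r) := by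
      ring
    rwa [hv] at hs3
  · subst h1
    simpa using hasSum_one

lemma cc_zero_left (q : ℝ) (k : ℕ) : cc 0 q k = 1 := by
  induction k with
  | zero => rfl
  | succ k ih => simp [cc, ih]

lemma cc_zero_right (p : ℝ) (k : ℕ) : cc p 0 k = 1 := by
  induction k with
  | zero => rfl
  | succ k ih => simp [cc, ih]

lemma cc_ne (p q : ℝ) (k : ℕ) : (q - p) * cc p q k = q * (1 - p) ^ k - p * (1 - q) ^ k := by
  induction k with
  | zero => simp [cc]
  | succ k ih =>
    simp only [cc]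
    have : (q - p) * ((1 - q) * cc p q k + q * (1 - p) ^ k)
      = (1 - q) * ((q - p) * cc p q k) + (q - p) * (q * (1 - p) ^ k) := by ring
    rw [this, ih]; ring

lemma cc_eq (p : ℝ) (n : ℕ) : cc p p (n + 1) = (1 - p) ^ (n + 1) + ((n : ℝ) + 1) * p * (1 - p) ^ n := by
  induction n with
  | zero => simp [cc]
  | succ n ih =>
    rw [cc, ih]
    push_cast
    ring

lemma log_mean (p q : ℝ) (hp : 0 < p) (hpq : p < q) :
    Real.sqrt (p * q) * (Real.log q - Real.log p) ≤ q - p := by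
  have hq : 0 < q := hp.trans hpq
  have hsp : 0 < Real.sqrt p := Real.sqrt_pos.2 hp
  have hsq : 0 < Real.sqrt q := Real.sqrt_pos.2 hq
  set y := Real.sqrt q / Real.sqrt p with hy
  have hy0 : 0 < y := div_pos hsq hsp
  have hy1 : 1 ≤ y := by
    rw [hy, le_div_iff₀ hsp, one_mul]
    exact Real.sqrt_le_sqrt hpq.le
  have h1 : Real.log y ≤ (y - y⁻¹) / 2 := by
    rw [← Real.sinh_log hy0]
    exact Real.self_le_sinh_iff.2 (Real.log_nonneg hy1)
  have h2 : Real.log y = (Real.log q - Real.log p) / 2 := by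
    rw [hy, Real.log_div hsq.ne' hsp.ne', Real.log_sqrt hq.le, Real.log_sqrt hp.le]
    ring
  have h3 : y - y⁻¹ = (q - p) / (Real.sqrt p * Real.sqrt q) := by
    rw [hy]
    field_simp
    rw [Real.sq_sqrt hq.le, Real.sq_sqrt hp.le]
  rw [h2, h3] at h1
  have h4 : Real.log q - Real.log p ≤ (q - p) / (Real.sqrt p * Real.sqrt q) := by linarith
  rw [Real.sqrt_mul hp.le]
  rw [le_div_iff₀ (mul_pos hsp hsq)] at h4
  linarith

lemma hasSum_cc_lt (p q : ℝ) (hp : 0 < p) (hpq : p < q) (hq1 : q ≤ 1) (f : ℕ → ℝ)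
    (hf : ∀ n, (q - p) * f n = q * (1 - p) ^ (n + 2) - p * (1 - q) ^ (n + 2)) :
    ∃ S, HasSum (fun n : ℕ => (1 - f n) / (((n : ℝ) + 1) * ((n : ℝ) + 2))) S ∧
      S ≤ Real.sqrt (p * q) := by
  have hq : 0 < q := hp.trans hpq
  have hd : 0 < q - p := by linarith
  have e1 := hasSum_phi (1 - p) (by linarith) (by linarith)
  have e2 := hasSum_phi (1 - q) (by linarith) (by linarith)
  have e3 := hasSum_one.sub (((e1.mul_left q).sub (e2.mul_left p)).mul_left (1 / (q - p)))
  have heq : (fun n : ℕ => (1 : ℝ) / (((n : ℝ) + 1) * ((n : ℝ) + 2)) - 1 / (q - p) *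
        (q * ((1 - p) ^ (n + 2) / (((n : ℝ) + 1) * ((n : ℝ) + 2))) -
          p * ((1 - q) ^ (n + 2) / (((n : ℝ) + 1) * ((n : ℝ) + 2)))))
        = fun n : ℕ => (1 - f n) / (((n : ℝ) + 1) * ((n : ℝ) + 2)) := by
      funext n
      have hfn : f n = (q * (1 - p) ^ (n + 2) - p * (1 - q) ^ (n + 2)) / (q - p) := by
        rw [eq_div_iff hd.ne', mul_comm, hf]
      rw [hfn]
      have h1 : (n : ℝ) + 1 ≠ 0 := by positivity
      have h2 : (n : ℝ) + 2 ≠ 0 := by positivity
      have h3 := hd.ne'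
      field_simp
  rw [heq] at e3
  refine ⟨_, e3, ?_⟩
  · have hv : 1 - 1 / (q - p) * (q * (1 - p + (1 - (1 - p)) * Real.log (1 - (1 - p))) -
        p * (1 - q + (1 - (1 - q)) * Real.log (1 - (1 - q))))
        = p * q * (Real.log q - Real.log p) / (q - p) := by
      rw [show (1 : ℝ) - (1 - p) = p by ring, show (1 : ℝ) - (1 - q) = q by ring]
      have h3 := hd.ne'
      field_simp
      ring
    rw [hv, div_le_iff₀ hd]
    have hlm := log_mean p q hp hpq
    have hs : Real.sqrt (p * q) * Real.sqrt (p * q) = p * q := Real.mul_self_sqrt (by positivity)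
    calc p * q * (Real.log q - Real.log p)
        = Real.sqrt (p * q) * (Real.sqrt (p * q) * (Real.log q - Real.log p)) := by
          rw [← mul_assoc, hs]
      _ ≤ Real.sqrt (p * q) * (q - p) :=
          mul_le_mul_of_nonneg_left hlm (Real.sqrt_nonneg _)

lemma hasSum_cc (p q : ℝ) (hp : 0 ≤ p) (hq : 0 ≤ q) (hpq : p + q ≤ 1) :
    ∃ S, HasSum (fun n : ℕ => (1 - cc p q (n + 2)) / (((n : ℝ) + 1) * ((n : ℝ) + 2))) S ∧
      S ≤ Real.sqrt (p * q) := by
  rcases hp.eq_or_lt with hp | hp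
  · subst hp
    refine ⟨0, ?_, by simp⟩
    simp [cc_zero_left, hasSum_zero]
  rcases hq.eq_or_lt with hq | hq
  · subst hq
    refine ⟨0, ?_, by simp⟩
    simp [cc_zero_right, hasSum_zero]
  rcases lt_trichotomy p q with hlt | heq | hgt
  · exact hasSum_cc_lt p q hp hlt (by linarith) _ (fun n => cc_ne p q (n + 2))
  · subst heq
    have e1 := hasSum_phi (1 - p) (by linarith) (by linarith)
    have habs : |1 - p| < 1 := by
      rw [abs_of_nonneg (by linarith)]; linarith
    have e2 := (Real.hasSum_pow_div_log_of_abs_lt_one habs).mul_left p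
    have e3 := (hasSum_one.sub e1).sub e2
    have heq : (fun n : ℕ => (1 : ℝ) / (((n : ℝ) + 1) * ((n : ℝ) + 2)) -
          (1 - p) ^ (n + 2) / (((n : ℝ) + 1) * ((n : ℝ) + 2)) -
            p * ((1 - p) ^ (n + 1) / ((n : ℝ) + 1)))
          = fun n : ℕ => (1 - cc p p (n + 2)) / (((n : ℝ) + 1) * ((n : ℝ) + 2)) := by
        funext n
        rw [cc_eq]
        push_cast
        have h1 : (n : ℝ) + 1 ≠ 0 := by positivity
        have h2 : (n : ℝ) + 2 ≠ 0 := by positivity
        field_simp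
        ring
    rw [heq] at e3
    refine ⟨_, e3, ?_⟩
    · rw [Real.sqrt_mul_self hp.le]
      apply le_of_eq
      ring_nf
  · rw [mul_comm p q]
    refine hasSum_cc_lt q p hq hgt (by linarith) _ (fun n => ?_)
    have := cc_ne p q (n + 2)
    linarith

end Pool.Agent.P8FA
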