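import Mathlib

set_option autoImplicit false
set_option linter.unusedSectionVars false

namespace Pool.Agent.P8FA

open Finset

variable {ι α : Type*} [Fintype ι] [DecidableEq ι] [DecidableEq α]

/-- elements `x` for which some index with `x ∈ B` occurs before some index with `x ∈ A`. -/
def Y (A B : ι → Finset α) : List ι → Finset α
  | [] => ∅
  | i :: l => Y A B l ∪ (B i ∩ l.toFinset.biUnion A)

lemma mem_Y_cons (A B : ι → Finset α) (i : ι) (l : List ι) (x : α) :
    x ∈ Y A B (i :: l) ↔ x ∈ Y A B l ∨ (x ∈ B i ∧ ∃ j ∈ l, x ∈ A j) := by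
  simp [Y]

/-- `s` occurs before `t`. -/
lemma mem_Y_of_idx (A B : ι → Finset α) (l : List ι) (s t : ι) (hs : s ∈ l) (ht : t ∈ l)
    (hst : l.idxOf s < l.idxOf t) (x : α) (hx : x ∈ A t) (hx' : x ∈ B s) : x ∈ Y A B l := by
  induction l with
  | nil => simp at hs
  | cons i l ih =>
    rw [mem_Y_cons]
    by_cases hti : i = t
    · subst hti
      simp at hst
    by_cases hsi : i = s
    · subst hsi
      right
      refine ⟨hx', t, ?_, hx⟩
      rcases List.mem_cons.1 ht with h | h
      · exact absurd h.symm hti
      · exact h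
    · left
      apply ih
      · rcases List.mem_cons.1 hs with h | h
        · exact absurd h.symm hsi
        · exact h
      · rcases List.mem_cons.1 ht with h | h
        · exact absurd h.symm hti
        · exact h
      · rw [List.idxOf_cons_ne _ (by simpa using hsi), List.idxOf_cons_ne _ (by simpa using hti)] at hst
        omega

/-- one-cross-intersecting systems -/
def OneCross (A B : ι → Finset α) : Prop :=
  (∀ i, A i ∩ B i = ∅) ∧ ∀ i j, i ≠ j → (A i ∩ B j).card = 1

lemma key (A B : ι → Finset α) (h : OneCross A B) (l : List ι) :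
    l.toFinset.card ≤ (Y A B l).card + 1 := by
  by_contra hcon
  rw [not_le] at hcon
  -- linear map
  let S := l.toFinset
  let Φ : ({i // i ∈ S} → ℝ) →ₗ[ℝ] (({x // x ∈ Y A B l} → ℝ) × ℝ) :=
    { toFun := fun w => (fun x => ∑ i : {i // i ∈ S}, if x.1 ∈ B i.1 then w i else 0, ∑ i, w i)
      map_add' := by
        intro v w
        ext x
        · simp only [Pi.add_apply, Prod.fst_add]
          rw [← Finset.sum_add_distrib]
          apply Finset.sum_congr rfl
          intro i _
          split_ifs <;> simp
        · simp [Finset.sum_add_distrib]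
      map_smul' := by
        intro c w
        ext x
        · simp only [Pi.smul_apply, Prod.smul_fst, smul_eq_mul, RingHom.id_apply]
          rw [Finset.mul_sum]
          apply Finset.sum_congr rfl
          intro i _
          split_ifs <;> simp
        · simp [Finset.mul_sum] }
  have hfin : Module.finrank ℝ (({x // x ∈ Y A B l} → ℝ) × ℝ) < Module.finrank ℝ ({i // i ∈ S} → ℝ) := by
    simp only [Module.finrank_prod, Module.finrank_fintype_fun_eq_card, Module.finrank_self,
      Fintype.card_coe]
    exact hcon
  have hker := LinearMap.ker_ne_bot_of_finrank_lt hfin (f := Φ)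
  obtain ⟨w, hw, hw0⟩ := Submodule.exists_mem_ne_zero_of_ne_bot hker
  rw [LinearMap.mem_ker] at hw
  have hw1 : ∀ x : {x // x ∈ Y A B l}, ∑ i : {i // i ∈ S}, (if x.1 ∈ B i.1 then w i else 0) = 0 := by
    intro x
    have := congrArg (fun z => z.1 x) hw
    simpa [Φ] using this
  have hw2 : ∑ i, w i = 0 := by
    have := congrArg (fun z => z.2) hw
    simpa [Φ] using this
  -- the last index in the support
  let T : Finset {i // i ∈ S} := univ.filter (fun i => w i ≠ 0)
  have hT : T.Nonempty := by
    obtain ⟨i, hi⟩ := Function.ne_iff.1 hw0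
    exact ⟨i, by simpa [T] using hi⟩
  obtain ⟨t, htT, htmax⟩ := T.exists_max_image (fun i => l.idxOf i.1) hT
  have htw : w t ≠ 0 := by simpa [T] using htT
  have htl : t.1 ∈ l := List.mem_toFinset.1 t.2
  apply htw
  -- sum over x in A t ∩ Y
  have hsum : ∑ x ∈ (A t.1 ∩ Y A B l), ∑ i : {i // i ∈ S}, (if x ∈ B i.1 then w i else 0) = 0 := by
    apply Finset.sum_eq_zero
    intro x hx
    exact hw1 ⟨x, (Finset.mem_inter.1 hx).2⟩
  rw [Finset.sum_comm] at hsum
  have hterm : ∀ i : {i // i ∈ S}, ∑ x ∈ (A t.1 ∩ Y A B l), (if x ∈ B i.1 then w i else 0)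
      = if i = t then 0 else w i := by
    intro i
    rw [← Finset.sum_filter]
    rw [Finset.sum_const]
    by_cases hit : i = t
    · subst hit
      have : (A i.1 ∩ Y A B l).filter (fun x => x ∈ B i.1) = ∅ := by
        apply Finset.eq_empty_of_forall_notMem
        intro x hx
        rw [Finset.mem_filter, Finset.mem_inter] at hx
        have h1 := h.1 i.1
        have : x ∈ A i.1 ∩ B i.1 := Finset.mem_inter.2 ⟨hx.1.1, hx.2⟩
        rw [h1] at this
        simp at this
      rw [this]
      simp
    · rw [if_neg hit]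
      by_cases hwi : w i = 0
      · simp [hwi]
      have hne : t.1 ≠ i.1 := fun h => hit (Subtype.ext h.symm)
      have hlt : l.idxOf i.1 < l.idxOf t.1 := by
        have hle := htmax i (by simp [T, hwi])
        have hil : i.1 ∈ l := List.mem_toFinset.1 i.2
        rcases lt_or_eq_of_le hle with h' | h'
        · exact h'
        · exact absurd ((List.idxOf_inj hil).1 h').symm hne
      have : (A t.1 ∩ Y A B l).filter (fun x => x ∈ B i.1) = A t.1 ∩ B i.1 := by
        ext x
        simp only [Finset.mem_filter, Finset.mem_inter]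
        constructor
        · rintro ⟨⟨h1, _⟩, h2⟩; exact ⟨h1, h2⟩
        · rintro ⟨h1, h2⟩
          exact ⟨⟨h1, mem_Y_of_idx A B l i.1 t.1 (List.mem_toFinset.1 i.2) htl hlt x h1 h2⟩, h2⟩
      rw [this, h.2 _ _ hne]
      simp
  rw [Finset.sum_congr rfl (fun i _ => hterm i)] at hsum
  have : ∑ i : {i // i ∈ S}, (if i = t then 0 else w i) = (∑ i, w i) - w t := by
    have h1 : ∀ i : {i // i ∈ S}, (if i = t then 0 else w i) = w i - (if i = t then w i else 0) := by
      intro i; split_ifs <;> simp
    rw [Finset.sum_congr rfl (fun i _ => h1 i), Finset.sum_sub_distrib]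
    simp
  rw [this, hw2] at hsum
  linarith

end Pool.Agent.P8FA
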