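import Pool.Agent.P8FA.Core

set_option autoImplicit false
set_option linter.unusedSectionVars false

namespace Pool.Agent.P8FA

open Finset

variable {ι α : Type*} [Fintype ι] [DecidableEq ι] [DecidableEq α]

/-- expectation over `k` independent samples from the weights `μ` -/
noncomputable def ex (μ : ι → ℝ) : ℕ → (List ι → ℝ) → ℝ
  | 0, F => F []
  | k + 1, F => ∑ i, μ i * ex μ k (fun l => F (i :: l))

lemma ex_add (μ : ι → ℝ) (k : ℕ) (F G : List ι → ℝ) :
    ex μ k (fun l => F l + G l) = ex μ k F + ex μ k G := by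
  induction k generalizing F G with
  | zero => simp [ex]
  | succ k ih =>
    simp only [ex]
    rw [← Finset.sum_add_distrib]
    apply Finset.sum_congr rfl
    intro i _
    rw [ih]; ring

lemma ex_sum {β : Type*} (μ : ι → ℝ) (k : ℕ) (s : Finset β) (F : β → List ι → ℝ) :
    ex μ k (fun l => ∑ b ∈ s, F b l) = ∑ b ∈ s, ex μ k (F b) := by
  induction k generalizing F with
  | zero => simp [ex]
  | succ k ih =>
    simp only [ex]
    rw [Finset.sum_comm]
    apply Finset.sum_congr rfl
    intro i _
    rw [ih, Finset.mul_sum]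

lemma ex_mul (μ : ι → ℝ) (k : ℕ) (c : ℝ) (F : List ι → ℝ) :
    ex μ k (fun l => c * F l) = c * ex μ k F := by
  induction k generalizing F with
  | zero => simp [ex]
  | succ k ih =>
    simp only [ex]
    rw [Finset.mul_sum]
    apply Finset.sum_congr rfl
    intro i _
    rw [ih]; ring

lemma ex_const (μ : ι → ℝ) (hμ : ∑ i, μ i = 1) (k : ℕ) (c : ℝ) :
    ex μ k (fun _ => c) = c := by
  induction k with
  | zero => simp [ex]
  | succ k ih =>
    simp only [ex]
    rw [ih, ← Finset.sum_mul, hμ, one_mul]

lemma ex_mono (μ : ι → ℝ) (hμ : ∀ i, 0 ≤ μ i) (k : ℕ) (F G : List ι → ℝ) (h : ∀ l, F l ≤ G l) :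
    ex μ k F ≤ ex μ k G := by
  induction k generalizing F G with
  | zero => simpa [ex] using h []
  | succ k ih =>
    simp only [ex]
    apply Finset.sum_le_sum
    intro i _
    exact mul_le_mul_of_nonneg_left (ih _ _ (fun l => h _)) (hμ i)

/-- indicator of no sampled index lies in P -/
lemma ex_avoid (μ : ι → ℝ) (P : ι → Prop) [DecidablePred P] (k : ℕ) :
    ex μ k (fun l => if ∀ j ∈ l, ¬ P j then (1 : ℝ) else 0)
      = (∑ i, if P i then 0 else μ i) ^ k := by
  induction k with
  | zero => simp [ex]
  | succ k ih =>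
    simp only [ex]
    rw [pow_succ, mul_comm, Finset.sum_mul]
    apply Finset.sum_congr rfl
    intro i _
    by_cases hi : P i
    · have : (fun l : List ι => if ∀ j ∈ i :: l, ¬ P j then (1 : ℝ) else 0) = fun l => 0 * (1:ℝ) := by
        funext l
        rw [if_neg, zero_mul]
        intro h
        exact h i (by simp) hi
      rw [this, ex_mul]
      simp [hi]
    · have : (fun l : List ι => if ∀ j ∈ i :: l, ¬ P j then (1 : ℝ) else 0)
          = fun l => if ∀ j ∈ l, ¬ P j then (1 : ℝ) else 0 := by
        funext l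
        congr 1
        simp [hi]
      rw [this, ih]
      simp [hi]

/-- the probability of no V before a U -/
noncomputable def cc (p q : ℝ) : ℕ → ℝ
  | 0 => 1
  | k + 1 => (1 - q) * cc p q k + q * (1 - p) ^ k

lemma ex_notMem_Y (μ : ι → ℝ) (hμ : ∑ i, μ i = 1) (A B : ι → Finset α) (x : α) (k : ℕ) :
    ex μ k (fun l => if x ∈ Y A B l then (0 : ℝ) else 1)
      = cc (∑ i, if x ∈ A i then μ i else 0) (∑ i, if x ∈ B i then μ i else 0) k := by
  induction k with
  | zero => simp [ex, cc, Y]
  | succ k ih =>
    simp only [ex, cc]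
    have h1 : ∀ i, ex μ k (fun l => if x ∈ Y A B (i :: l) then (0 : ℝ) else 1)
        = if x ∈ B i then (1 - ∑ i, if x ∈ A i then μ i else 0) ^ k
          else cc (∑ i, if x ∈ A i then μ i else 0) (∑ i, if x ∈ B i then μ i else 0) k := by
      intro i
      by_cases hi : x ∈ B i
      · rw [if_pos hi]
        have : (fun l : List ι => if x ∈ Y A B (i :: l) then (0 : ℝ) else 1)
            = fun l => if ∀ j ∈ l, ¬ (x ∈ A j) then (1 : ℝ) else 0 := by
          funext l
          simp only [mem_Y_cons]
          by_cases hl : ∀ j ∈ l, ¬ (x ∈ A j)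
          · rw [if_pos hl, if_neg]
            rintro (h | ⟨_, j, hj, hx⟩)
            · -- x ∈ Y l implies some A j
              clear ih
              induction l with
              | nil => simp [Y] at h
              | cons a l ihl =>
                rw [mem_Y_cons] at h
                rcases h with h | ⟨_, j, hj, hx⟩
                · exact ihl (fun j hj => hl j (List.mem_cons_of_mem _ hj)) h
                · exact hl j (List.mem_cons_of_mem _ hj) hx
            · exact hl j hj hx
          · rw [if_neg hl, if_pos]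
            right
            simp only [not_forall, not_not, exists_prop] at hl
            exact ⟨hi, hl⟩
        rw [this, ex_avoid]
        congr 1
        rw [eq_sub_iff_add_eq, ← Finset.sum_add_distrib, ← hμ]
        apply Finset.sum_congr rfl
        intro j _
        split_ifs <;> simp
      · rw [if_neg hi, ← ih]
        congr 1
        funext l
        simp only [mem_Y_cons]
        simp [hi]
    rw [Finset.sum_congr rfl (fun i _ => by rw [h1 i])]
    have h2 : ∀ i, μ i * (if x ∈ B i then (1 - ∑ i, if x ∈ A i then μ i else 0) ^ k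
          else cc (∑ i, if x ∈ A i then μ i else 0) (∑ i, if x ∈ B i then μ i else 0) k)
        = (if x ∈ B i then μ i else 0) * (1 - ∑ i, if x ∈ A i then μ i else 0) ^ k
          + (μ i - (if x ∈ B i then μ i else 0)) *
            cc (∑ i, if x ∈ A i then μ i else 0) (∑ i, if x ∈ B i then μ i else 0) k := by
      intro i; split_ifs <;> ring
    rw [Finset.sum_congr rfl (fun i _ => h2 i), Finset.sum_add_distrib, ← Finset.sum_mul,
      ← Finset.sum_mul, Finset.sum_sub_distrib, hμ]
    ring

lemma ex_card (μ : ι → ℝ) (hμ : ∑ i, μ i = 1) (k : ℕ) :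
    ex μ k (fun l => (l.toFinset.card : ℝ)) = ∑ i, (1 - (1 - μ i) ^ k) := by
  have h1 : (fun l : List ι => (l.toFinset.card : ℝ))
      = fun l => ∑ i, (1 + (-1) * (if ∀ j ∈ l, ¬ (j = i) then (1 : ℝ) else 0)) := by
    funext l
    have : ∀ i, (1 + (-1) * (if ∀ j ∈ l, ¬ (j = i) then (1 : ℝ) else 0))
        = if i ∈ l.toFinset then 1 else 0 := by
      intro i
      by_cases hi : i ∈ l
      · rw [if_neg, if_pos (List.mem_toFinset.2 hi)]
        · ring
        · intro h; exact h i hi rfl
      · rw [if_pos, if_neg (fun h => hi (List.mem_toFinset.1 h))]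
        · ring
        · rintro j hj rfl; exact hi hj
    rw [Finset.sum_congr rfl (fun i _ => this i), Finset.sum_boole]
    congr 2
    ext i
    simp
  rw [h1, ex_sum]
  apply Finset.sum_congr rfl
  intro i _
  rw [ex_add, ex_const μ hμ, ex_mul, ex_avoid]
  have : (∑ j, if j = i then 0 else μ j) = 1 - μ i := by
    rw [eq_sub_iff_add_eq, ← hμ]
    have : μ i = ∑ j, if j = i then μ j else 0 := by simp
    rw [this, ← Finset.sum_add_distrib]
    apply Finset.sum_congr rfl
    intro j _
    split_ifs <;> simp
  rw [this]; ring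

/-- the basic inequality for `k` samples -/
lemma basic (A B : ι → Finset α) (h : OneCross A B) (μ : ι → ℝ) (hμ0 : ∀ i, 0 ≤ μ i)
    (hμ : ∑ i, μ i = 1) (Ω : Finset α) (hΩ : ∀ i, B i ⊆ Ω) (k : ℕ) :
    ∑ i, (1 - (1 - μ i) ^ k) - 1 ≤
      ∑ x ∈ Ω, (1 - cc (∑ i, if x ∈ A i then μ i else 0) (∑ i, if x ∈ B i then μ i else 0) k) := by
  have h1 : ∀ l : List ι, ((l.toFinset.card : ℝ)) ≤
      ∑ x ∈ Ω, (1 + (-1) * (if x ∈ Y A B l then (0 : ℝ) else 1)) + 1 := by
    intro l
    have h2 : ∑ x ∈ Ω, (1 + (-1) * (if x ∈ Y A B l then (0 : ℝ) else 1)) = ((Y A B l).card : ℝ) := by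
      have : ∀ x ∈ Ω, (1 + (-1) * (if x ∈ Y A B l then (0 : ℝ) else 1))
          = if x ∈ Y A B l then 1 else 0 := by
        intro x _; split_ifs <;> ring
      rw [Finset.sum_congr rfl this, ← Finset.sum_filter, Finset.sum_const, nsmul_eq_mul, mul_one]
      congr 2
      ext x
      simp only [Finset.mem_filter, and_iff_right_iff_imp]
      clear this
      intro hx
      induction l with
      | nil => simp [Y] at hx
      | cons a l ihl =>
        rw [mem_Y_cons] at hx
        rcases hx with hx | ⟨hx, _⟩
        · exact ihl hx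
        · exact hΩ a hx
    rw [h2]
    exact_mod_cast key A B h l
  have h3 := ex_mono μ hμ0 k _ _ h1
  rw [ex_card μ hμ, ex_add, ex_sum, ex_const μ hμ] at h3
  rw [sub_le_iff_le_add]
  refine h3.trans (le_of_eq ?_)
  congr 1
  apply Finset.sum_congr rfl
  intro x _
  rw [ex_add, ex_const μ hμ, ex_mul, ex_notMem_Y μ hμ]
  ring

end Pool.Agent.P8FA
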