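import Pool.Agent.P8FA.Main

set_option autoImplicit false

namespace Pool.Agent.Results.MP_8fa74e_co.ExpUpperBound

open Filter Topology

/-- `A_i, B_i` form a 1-cross intersecting set pair system: `A_i ∩ B_i = ∅` for every `i` and
`|A_i ∩ B_j| = 1` for all `i ≠ j`. -/
def OneCross {ι α : Type} [DecidableEq α] (A B : ι → Finset α) : Prop :=
  (∀ i, A i ∩ B i = ∅) ∧ ∀ i j, i ≠ j → (A i ∩ B j).card = 1

/-- There is an `(n,n)`-restricted 1-cross intersecting set pair system of size `m`. -/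
def HasSystem (n m : ℕ) : Prop :=
  ∃ A B : Fin m → Finset ℕ, OneCross A B ∧ (∀ i, (A i).card ≤ n) ∧ ∀ i, (B i).card ≤ n

/-- `m_n`: the largest size of an `(n,n)`-restricted 1-cross intersecting set pair system. -/
noncomputable def mMax (n : ℕ) : ℕ := sSup {m | HasSystem n m}

lemma hasSystem_le (n m : ℕ) (h : HasSystem n m) : (m : ℝ) ≤ Real.exp n := by
  obtain ⟨A, B, hAB, hA, hB⟩ := h
  have := Pool.Agent.P8FA.card_le A B hAB n n hA hB
  rw [Fintype.card_fin, Real.sqrt_mul_self (Nat.cast_nonneg n)] at this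
  exact this

lemma bddAbove (n : ℕ) : BddAbove {m | HasSystem n m} := by
  refine ⟨⌊Real.exp n⌋₊, ?_⟩
  intro m hm
  exact Nat.le_floor (hasSystem_le n m hm)

lemma hasSystem_zero (n : ℕ) : HasSystem n 0 :=
  ⟨fun i => i.elim0, fun i => i.elim0, ⟨fun i => i.elim0, fun i => i.elim0⟩, fun i => i.elim0,
    fun i => i.elim0⟩

lemma isGreatest (n : ℕ) : IsGreatest {m | HasSystem n m} (mMax n) :=
  ⟨Nat.sSup_mem ⟨0, hasSystem_zero n⟩ (bddAbove n), fun _ hm => le_csSup (bddAbove n) hm⟩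

/-- **Theorem.** Every finite 1-cross intersecting set pair system satisfies the LYM-type
inequality `∑ exp(-(s|A_i| + |B_i|/s)/2) ≤ 1` for every `s > 0`; hence it has at most
`exp √(ab)` members if `|A_i| ≤ a` and `|B_i| ≤ b`. In particular `m_n ≤ e^n` for all `n`, and
`λ = lim m_n^{1/n} ≤ e`. -/
theorem result :
    (∀ (ι α : Type) [Fintype ι] [DecidableEq α] (A B : ι → Finset α), OneCross A B →
      ∀ s : ℝ, 0 < s →
        ∑ i, Real.exp (-((s * (A i).card + (B i).card / s) / 2)) ≤ 1) ∧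
    (∀ (ι α : Type) [Fintype ι] [DecidableEq α] (A B : ι → Finset α), OneCross A B →
      ∀ a b : ℕ, (∀ i, (A i).card ≤ a) → (∀ i, (B i).card ≤ b) →
        (Fintype.card ι : ℝ) ≤ Real.exp (Real.sqrt ((a : ℝ) * b))) ∧
    (∀ n : ℕ, IsGreatest {m | HasSystem n m} (mMax n) ∧ (mMax n : ℝ) ≤ Real.exp n) ∧
    (∀ L : ℝ, Tendsto (fun n : ℕ => (mMax n : ℝ) ^ (1 / (n : ℝ))) atTop (𝓝 L) →
      L ≤ Real.exp 1) := by
  classical
  refine ⟨?_, ?_, ?_, ?_⟩
  · intro ι α _ _ A B h s hs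
    exact Pool.Agent.P8FA.lym A B h s hs
  · intro ι α _ _ A B h a b hA hB
    exact Pool.Agent.P8FA.card_le A B h a b hA hB
  · intro n
    exact ⟨isGreatest n, hasSystem_le n _ (isGreatest n).1⟩
  · intro L hL
    apply le_of_tendsto hL
    filter_upwards [eventually_gt_atTop 0] with n hn
    have hn' : (0 : ℝ) < n := by exact_mod_cast hn
    have h1 : (mMax n : ℝ) ≤ Real.exp n := hasSystem_le n _ (isGreatest n).1
    calc (mMax n : ℝ) ^ (1 / (n : ℝ)) ≤ (Real.exp n) ^ (1 / (n : ℝ)) :=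
          Real.rpow_le_rpow (Nat.cast_nonneg _) h1 (by positivity)
      _ = Real.exp 1 := by
          rw [← Real.exp_mul]
          congr 1
          field_simp

end Pool.Agent.Results.MP_8fa74e_co.ExpUpperBound
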