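import Pool.Agent.P8FA.Anal

set_option autoImplicit false
set_option linter.unusedSectionVars false

namespace Pool.Agent.P8FA

open Finset Filter Topology

variable {ι α : Type*} [Fintype ι] [DecidableEq ι] [DecidableEq α]

theorem entropy_le (A B : ι → Finset α) (h : OneCross A B) (μ : ι → ℝ) (hμ0 : ∀ i, 0 ≤ μ i)
    (hμ : ∑ i, μ i = 1) (Ω : Finset α) (hΩ : ∀ i, B i ⊆ Ω) :
    - ∑ i, μ i * Real.log (μ i) ≤
      ∑ x ∈ Ω, Real.sqrt ((∑ i, if x ∈ A i then μ i else 0) * (∑ i, if x ∈ B i then μ i else 0)) := by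
  have hμ1 : ∀ i, μ i ≤ 1 := by
    intro i
    rw [← hμ]
    exact Finset.single_le_sum (fun j _ => hμ0 j) (Finset.mem_univ i)
  -- right-hand sums
  have hpq : ∀ x ∈ Ω, ∃ S, HasSum (fun n : ℕ => (1 - cc (∑ i, if x ∈ A i then μ i else 0)
      (∑ i, if x ∈ B i then μ i else 0) (n + 2)) / (((n : ℝ) + 1) * ((n : ℝ) + 2))) S ∧
      S ≤ Real.sqrt ((∑ i, if x ∈ A i then μ i else 0) * (∑ i, if x ∈ B i then μ i else 0)) := by
    intro x _
    apply hasSum_cc
    · apply Finset.sum_nonneg
      intro i _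
      split_ifs
      · exact hμ0 i
      · exact le_refl _
    · apply Finset.sum_nonneg
      intro i _
      split_ifs
      · exact hμ0 i
      · exact le_refl _
    · rw [← Finset.sum_add_distrib, ← hμ]
      apply Finset.sum_le_sum
      intro i _
      by_cases hA : x ∈ A i
      · have hB : x ∉ B i := by
          intro hB
          have h1 : x ∈ A i ∩ B i := Finset.mem_inter.2 ⟨hA, hB⟩
          rw [h.1 i] at h1
          simp at h1
        simp [hA, hB]
      · by_cases hB : x ∈ B i
        · simp [hA, hB]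
        · simp [hA, hB, hμ0 i]
  choose! S hS1 hS2 using hpq
  have hR := hasSum_sum (s := Ω) hS1
  -- left-hand sum
  have hL1 : ∀ i ∈ (Finset.univ : Finset ι), HasSum (fun n : ℕ => (1 : ℝ) / (((n : ℝ) + 1) * ((n : ℝ) + 2))
      - (1 - μ i) ^ (n + 2) / (((n : ℝ) + 1) * ((n : ℝ) + 2)))
      (1 - ((1 - μ i) + (1 - (1 - μ i)) * Real.log (1 - (1 - μ i)))) := by
    intro i _
    exact hasSum_one.sub (hasSum_phi (1 - μ i) (by linarith [hμ1 i]) (by linarith [hμ0 i]))
  have hL := (hasSum_sum hL1).sub hasSum_one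
  have hle : ∀ n : ℕ, (∑ i, ((1 : ℝ) / (((n : ℝ) + 1) * ((n : ℝ) + 2))
      - (1 - μ i) ^ (n + 2) / (((n : ℝ) + 1) * ((n : ℝ) + 2)))) - 1 / (((n : ℝ) + 1) * ((n : ℝ) + 2))
      ≤ ∑ x ∈ Ω, (1 - cc (∑ i, if x ∈ A i then μ i else 0)
      (∑ i, if x ∈ B i then μ i else 0) (n + 2)) / (((n : ℝ) + 1) * ((n : ℝ) + 2)) := by
    intro n
    have hb := basic A B h μ hμ0 hμ Ω hΩ (n + 2)
    have hpos : 0 < ((n : ℝ) + 1) * ((n : ℝ) + 2) := by positivity
    have hb2 := div_le_div_of_nonneg_right hb hpos.le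
    rw [Finset.sum_div] at hb2
    refine le_trans (le_of_eq ?_) hb2
    rw [sub_div, Finset.sum_div]
    congr 1
    apply Finset.sum_congr rfl
    intro i _
    rw [sub_div]
  have hfin := hasSum_le hle hL hR
  have hval : (∑ i, (1 - ((1 - μ i) + (1 - (1 - μ i)) * Real.log (1 - (1 - μ i))))) - 1
      = - ∑ i, μ i * Real.log (μ i) := by
    have : ∀ i, (1 - ((1 - μ i) + (1 - (1 - μ i)) * Real.log (1 - (1 - μ i))))
        = μ i - μ i * Real.log (μ i) := by
      intro i
      rw [show (1 : ℝ) - (1 - μ i) = μ i by ring]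
      ring
    rw [Finset.sum_congr rfl (fun i _ => this i), Finset.sum_sub_distrib, hμ]
    ring
  rw [hval] at hfin
  exact hfin.trans (Finset.sum_le_sum hS2)

/-- entropy is at most the weighted load -/
theorem entropy_le_load (A B : ι → Finset α) (h : OneCross A B) (μ : ι → ℝ) (hμ0 : ∀ i, 0 ≤ μ i)
    (hμ : ∑ i, μ i = 1) (s : ℝ) (hs : 0 < s) :
    - ∑ i, μ i * Real.log (μ i) ≤
      ∑ i, μ i * ((s * (A i).card + (B i).card / s) / 2) := by
  let Ω : Finset α := univ.biUnion (fun i => A i ∪ B i)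
  have hΩA : ∀ i, A i ⊆ Ω := fun i x hx =>
    Finset.mem_biUnion.2 ⟨i, Finset.mem_univ _, Finset.mem_union_left _ hx⟩
  have hΩB : ∀ i, B i ⊆ Ω := fun i x hx =>
    Finset.mem_biUnion.2 ⟨i, Finset.mem_univ _, Finset.mem_union_right _ hx⟩
  have h1 := entropy_le A B h μ hμ0 hμ Ω hΩB
  refine h1.trans ?_
  have h2 : ∀ x ∈ Ω, Real.sqrt ((∑ i, if x ∈ A i then μ i else 0) * (∑ i, if x ∈ B i then μ i else 0))
      ≤ (s * (∑ i, if x ∈ A i then μ i else 0) + (∑ i, if x ∈ B i then μ i else 0) / s) / 2 := by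
    intro x _
    have hp : 0 ≤ (∑ i, if x ∈ A i then μ i else 0) := by
      apply Finset.sum_nonneg
      intro i _
      split_ifs
      · exact hμ0 i
      · exact le_refl _
    have hq : 0 ≤ (∑ i, if x ∈ B i then μ i else 0) := by
      apply Finset.sum_nonneg
      intro i _
      split_ifs
      · exact hμ0 i
      · exact le_refl _
    set p := (∑ i, if x ∈ A i then μ i else 0)
    set q := (∑ i, if x ∈ B i then μ i else 0)
    apply Real.sqrt_le_iff.2
    constructor
    · positivity
    · have : p * q = (s * p) * (q / s) := by field_simp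
      rw [this]
      nlinarith [sq_nonneg (s * p - q / s)]
  refine (Finset.sum_le_sum h2).trans (le_of_eq ?_)
  have hcA : ∀ i, ∑ x ∈ Ω, (if x ∈ A i then μ i else 0) = μ i * (A i).card := by
    intro i
    rw [← Finset.sum_filter, Finset.sum_const, nsmul_eq_mul, mul_comm]
    congr 3
    ext x
    simp only [Finset.mem_filter, and_iff_right_iff_imp]
    exact fun hx => hΩA i hx
  have hcB : ∀ i, ∑ x ∈ Ω, (if x ∈ B i then μ i else 0) = μ i * (B i).card := by
    intro i
    rw [← Finset.sum_filter, Finset.sum_const, nsmul_eq_mul, mul_comm]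
    congr 3
    ext x
    simp only [Finset.mem_filter, and_iff_right_iff_imp]
    exact fun hx => hΩB i hx
  rw [← Finset.sum_div, Finset.sum_add_distrib, ← Finset.mul_sum, ← Finset.sum_div, Finset.sum_comm,
    Finset.sum_comm (s := Ω)]
  rw [Finset.sum_congr rfl (fun i _ => hcA i), Finset.sum_congr rfl (fun i _ => hcB i)]
  rw [Finset.mul_sum, Finset.sum_div, ← Finset.sum_add_distrib, Finset.sum_div]
  apply Finset.sum_congr rfl
  intro i _
  ring

/-- LYM-type inequality -/
theorem lym (A B : ι → Finset α) (h : OneCross A B) (s : ℝ) (hs : 0 < s) :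
    ∑ i, Real.exp (-((s * (A i).card + (B i).card / s) / 2)) ≤ 1 := by
  rcases isEmpty_or_nonempty ι with he | he
  · simp
  set w : ι → ℝ := fun i => Real.exp (-((s * (A i).card + (B i).card / s) / 2)) with hw
  set W := ∑ i, w i with hW
  have hWpos : 0 < W := Finset.sum_pos (fun i _ => Real.exp_pos _) Finset.univ_nonempty
  have hμ0 : ∀ i, 0 ≤ w i / W := fun i => div_nonneg (Real.exp_pos _).le hWpos.le
  have hμ : ∑ i, w i / W = 1 := by
    rw [← Finset.sum_div, div_self hWpos.ne']
  have h1 := entropy_le_load A B h (fun i => w i / W) hμ0 hμ s hs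
  have h2 : ∀ i, w i / W * Real.log (w i / W)
      = - (w i / W * ((s * (A i).card + (B i).card / s) / 2)) - w i / W * Real.log W := by
    intro i
    rw [Real.log_div (Real.exp_pos _).ne' hWpos.ne', hw, Real.log_exp]
    ring
  have h3 : ∑ i, w i / W * Real.log (w i / W)
      = - (∑ i, w i / W * ((s * (A i).card + (B i).card / s) / 2)) - Real.log W := by
    rw [Finset.sum_congr rfl (fun i _ => h2 i), Finset.sum_sub_distrib, Finset.sum_neg_distrib,
      ← Finset.sum_mul, hμ, one_mul]
  rw [h3] at h1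
  have h4 : Real.log W ≤ 0 := by linarith
  by_contra hcon
  rw [not_le] at hcon
  exact absurd h4 (not_le.2 (Real.log_pos hcon))

/-- `m ≤ exp √(ab)` -/
theorem card_le (A B : ι → Finset α) (h : OneCross A B) (a b : ℕ) (hA : ∀ i, (A i).card ≤ a)
    (hB : ∀ i, (B i).card ≤ b) : (Fintype.card ι : ℝ) ≤ Real.exp (Real.sqrt ((a : ℝ) * b)) := by
  rcases isEmpty_or_nonempty ι with he | he
  · simp [Real.exp_pos _ |>.le]
  have hm : 0 < (Fintype.card ι : ℝ) := by exact_mod_cast Fintype.card_pos
  -- for every s > 0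
  have h1 : ∀ s : ℝ, 0 < s → Real.log (Fintype.card ι) ≤ (s * a + b / s) / 2 := by
    intro s hs
    have h2 := lym A B h s hs
    have h3 : (Fintype.card ι : ℝ) * Real.exp (-((s * a + b / s) / 2)) ≤ 1 := by
      refine le_trans ?_ h2
      rw [← nsmul_eq_mul, ← Finset.card_univ, ← Finset.sum_const]
      apply Finset.sum_le_sum
      intro i _
      apply Real.exp_le_exp.2
      have hA' : ((A i).card : ℝ) ≤ a := by exact_mod_cast hA i
      have hB' : ((B i).card : ℝ) ≤ b := by exact_mod_cast hB i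
      have : s * (A i).card + (B i).card / s ≤ s * a + b / s := by
        have := mul_le_mul_of_nonneg_left hA' hs.le
        have := div_le_div_of_nonneg_right hB' hs.le
        linarith
      linarith
    rw [Real.exp_neg, ← div_eq_mul_inv, div_le_one (Real.exp_pos _)] at h3
    rw [Real.log_le_iff_le_exp hm]
    exact h3
  rw [← Real.log_le_iff_le_exp hm]
  rcases Nat.eq_zero_or_pos a with ha | ha
  · -- let s → ∞
    subst ha
    simp only [Nat.cast_zero, mul_zero, zero_mul, Real.sqrt_zero] at h1 ⊢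
    by_contra hcon
    rw [not_le] at hcon
    have h4 := h1 ((b + 1) / Real.log (Fintype.card ι)) (by positivity)
    rw [div_div_eq_mul_div] at h4
    have hb : (0 : ℝ) ≤ b := Nat.cast_nonneg b
    rw [zero_add, div_div, le_div_iff₀ (by positivity)] at h4
    nlinarith
  · rcases Nat.eq_zero_or_pos b with hb | hb
    · subst hb
      simp only [Nat.cast_zero, mul_zero, Real.sqrt_zero, zero_div, add_zero] at h1 ⊢
      by_contra hcon
      rw [not_le] at hcon
      have ha' : (0 : ℝ) < a := by exact_mod_cast ha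
      have h4 := h1 (Real.log (Fintype.card ι) / a) (by positivity)
      have : Real.log (Fintype.card ι) / a * a = Real.log (Fintype.card ι) := by
        field_simp
      rw [this] at h4
      linarith
    · have ha' : (0 : ℝ) < a := by exact_mod_cast ha
      have hb' : (0 : ℝ) < b := by exact_mod_cast hb
      have h4 := h1 (Real.sqrt b / Real.sqrt a) (div_pos (Real.sqrt_pos.2 hb') (Real.sqrt_pos.2 ha'))
      refine h4.trans (le_of_eq ?_)
      have hsa := Real.sqrt_pos.2 ha'
      have hsb := Real.sqrt_pos.2 hb'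
      have e1 : Real.sqrt b / Real.sqrt a * a = Real.sqrt b * Real.sqrt a := by
        rw [div_mul_eq_mul_div, div_eq_iff hsa.ne', mul_assoc, Real.mul_self_sqrt ha'.le]
      have e2 : (b : ℝ) / (Real.sqrt b / Real.sqrt a) = Real.sqrt b * Real.sqrt a := by
        rw [div_div_eq_mul_div, div_eq_iff hsb.ne']
        nlinarith [Real.mul_self_sqrt hb'.le]
      rw [e1, e2, Real.sqrt_mul ha'.le]
      ring

end Pool.Agent.P8FA
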